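import Mathlib
import Pool.Agent.Q283.FT.Stm

set_option autoImplicit false
set_option linter.unusedVariables false

namespace Pool.Agent.Q283.FT.A

open Finset Module Pool.Agent.Q283.FT
open scoped Classical

lemma z2 : ∀ a b : ZMod 2, a + b = 0 → a = b := by decide
lemma z2s : ∀ a : ZMod 2, a + a = 0 := by decide
lemma z2m : ∀ a : ZMod 2, a * a = a := by decide

/-- a symmetric double sum is its diagonal -/
lemma sum_sym {P : Type} [Fintype P] (F : P → P → ZMod 2) (h : ∀ p q, p ≠ q → F p q = F q p) :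
    ∑ p, ∑ q, F p q = ∑ p, F p p := by
  have h1 : ∑ p, ∑ q, F p q = ∑ p, ∑ q, (if p = q then F p q else 0) + ∑ p, ∑ q, (if p ≠ q then F p q else 0) := by
    rw [← sum_add_distrib]
    refine sum_congr rfl fun p _ => ?_
    rw [← sum_add_distrib]
    refine sum_congr rfl fun q _ => ?_
    by_cases hpq : p = q <;> simp [hpq]
  have h2 : ∑ p, ∑ q, (if p ≠ q then F p q else 0) = 0 := by
    rw [← Fintype.sum_prod_type' (f := fun p q => if p ≠ q then F p q else 0)]
    refine Finset.sum_involution (fun x _ => x.swap) ?_ ?_ (fun _ _ => mem_univ _) (fun _ _ => Prod.swap_swap _)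
    · rintro ⟨p, q⟩ _
      simp only [Prod.fst_swap, Prod.snd_swap]
      by_cases hpq : p = q
      · subst hpq; simp
      · rw [if_pos hpq, if_pos (Ne.symm hpq), h p q hpq]
        exact z2s _
    · rintro ⟨p, q⟩ _ h0 h3
      simp only [Prod.swap_prod_mk, Prod.mk.injEq] at h3
      rw [h3.1] at h0
      simp at h0
  rw [h1, h2, add_zero]
  refine sum_congr rfl fun p _ => ?_
  rw [sum_ite_eq]
  simp

section

variable {s V : Type} [Fintype s] [AddCommGroup V] [Module (ZMod 2) V]

lemma symm_of (D : Dj s V) (hD : D.Sym) (x y : V) : D.ω x y = D.ω y x := by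
  have h := hD.alt (x + y)
  simp only [map_add, LinearMap.add_apply, hD.alt, zero_add, add_zero] at h
  exact (z2 _ _ h).symm

lemma T_sum (D : Dj s V) (φ : s → ZMod 2) (x : V) : D.T φ x = ∑ t, φ t • D.T (Pi.single t 1) x := by
  have h : φ = ∑ t, φ t • (Pi.single t 1 : s → ZMod 2) := by
    funext t
    simp [Finset.sum_apply, Pi.single_apply]
  conv_lhs => rw [h]
  simp only [map_sum, map_smul, LinearMap.sum_apply, LinearMap.smul_apply]

/-- the diagonal part -/
lemma key_id {P : Type} [Fintype P] (D : Dj s V) (hD : D.Sym) (N : P → P → ZMod 2) (h : P → s → ZMod 2)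
    (hR : Rec N h D.s₀) (x : P → V) :
    ∑ p, ∑ q, N p q * D.ω (x p) (x q) + ∑ t, ∑ p, ∑ q, h p t * (h q t * D.ω (x p) (D.T (Pi.single t 1) (x q))) =
      ∑ p, D.ω (x p) (D.T (h p) (x p)) := by
  have e1 : ∑ t, ∑ p, ∑ q, h p t * (h q t * D.ω (x p) (D.T (Pi.single t 1) (x q))) =
      ∑ p, ∑ q, ∑ t, h p t * (h q t * D.ω (x p) (D.T (Pi.single t 1) (x q))) := by
    rw [sum_comm]
    refine sum_congr rfl fun p _ => ?_
    rw [sum_comm]
  rw [e1, ← sum_add_distrib]
  simp only [← sum_add_distrib]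
  rw [sum_sym]
  · refine sum_congr rfl fun p _ => ?_
    rw [hD.alt, mul_zero, zero_add, T_sum D (h p) (x p), map_sum]
    refine sum_congr rfl fun t _ => ?_
    rw [map_smul, smul_eq_mul, ← mul_assoc, z2m]
  · intro p q hpq
    have h1 := hR p q hpq
    have h2 : ∀ t, D.ω (x q) (D.T (Pi.single t 1) (x p)) = D.ω (x p) (D.T (Pi.single t 1) (x q)) +
        sgz (Pi.single t 1 : s → ZMod 2) D.s₀ * D.ω (x p) (x q) := by
      intro t
      rw [symm_of D hD (x q), hD.adj]
    have h3 : ∑ t, h q t * (h p t * D.ω (x q) (D.T (Pi.single t 1) (x p))) =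
        ∑ t, h p t * (h q t * D.ω (x p) (D.T (Pi.single t 1) (x q))) + sgz (h p) D.s₀ * sgz (h q) D.s₀ * D.ω (x p) (x q) := by
      have : ∀ t, h q t * (h p t * D.ω (x q) (D.T (Pi.single t 1) (x p))) =
          h p t * (h q t * D.ω (x p) (D.T (Pi.single t 1) (x q))) := by
        intro t
        rw [h2, sgz_eq]
        ring
      rw [sum_congr rfl fun t _ => this t, sgz_eq, zero_mul, zero_mul, add_zero]
    rw [h3, h1, symm_of D hD (x q) (x p)]
    have h4 := z2s (sgz (h p) D.s₀ * sgz (h q) D.s₀ * D.ω (x p) (x q))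
    linear_combination -h4

end

/-- **JQ-ID** -/
theorem t_ID : S_ID := by
  intro s V P _ _ _ _ D hD N h hR e
  obtain ⟨δ, x⟩ := e
  have hL : ∀ p, rowL D N h (δ, x) p = ∑ q, N p q • (x q + x p) + D.T (h p) (x p) + ∑ t, h p t • δ t :=
    fun p => rfl
  have hC : clL h (δ, x) = (δ, fun t => ∑ p, h p t • x p) := rfl
  rw [hC]
  unfold Dj.q
  simp only [hL, map_add, map_sum, map_smul, smul_eq_mul, LinearMap.sum_apply, LinearMap.smul_apply,
    smul_add, hD.alt, mul_zero, add_zero]
  have h1 := key_id D hD N h hR x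
  rw [sum_add_distrib, sum_add_distrib, ← h1]
  have h2 : ∑ p, ∑ t, h p t * D.ω (x p) (δ t) = ∑ t, ∑ p, h p t * D.ω (x p) (δ t) := sum_comm
  have h3 : ∀ t, ∑ p, h p t * ∑ q, h q t * D.ω (x q) (D.T (Pi.single t 1) (x p)) =
      ∑ p, ∑ q, h p t * (h q t * D.ω (x p) (D.T (Pi.single t 1) (x q))) := by
    intro t
    simp only [mul_sum]
    rw [sum_comm]
    refine sum_congr rfl fun p _ => sum_congr rfl fun q _ => ?_
    ring
  rw [h2]
  simp only [h3]
  have h4 := z2s (∑ p, ∑ q, N p q * D.ω (x p) (x q))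
  linear_combination h4

end Pool.Agent.Q283.FT.A
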