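import Pool.Agent.Q283.FT.A.PAR
import Pool.Agent.Q283.FT.StmI

set_option autoImplicit false
set_option linter.unusedVariables false

/-! Project JQ, job PAR0: the parity without the condition that the labels span. -/

namespace Pool.Agent.Q283.FT.A

open Finset Module Pool.Agent.Q283.FT
open scoped Classical

section

variable {s V : Type} [Fintype s] [AddCommGroup V] [Module (ZMod 2) V]

lemma finrank_L [Finite V] (D : Dj s V) (hc : Nat.card D.𝓛 = Nat.card V ^ Fintype.card s) :
    finrank (ZMod 2) D.𝓛 = Fintype.card s * finrank (ZMod 2) V := by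
  have h1 := Module.natCard_eq_pow_finrank (K := ZMod 2) (V := D.𝓛)
  have h2 := Module.natCard_eq_pow_finrank (K := ZMod 2) (V := V)
  rw [h1, h2, ← pow_mul, Nat.card_zmod] at hc
  have := Nat.pow_right_injective (le_refl 2) hc
  rw [this, mul_comm]

lemma Bq_nondeg (D : Dj s V) (hD : D.Sym) (nd : ∀ x, (∀ y, D.ω x y = 0) → x = 0) :
    LinearMap.BilinForm.Nondegenerate (Bq D) := by
  constructor
  · intro y hy
    exact Bq_nd D hD nd y hy
  · intro y hy
    exact Bq_nd D hD nd y fun y' => by rw [Bq_symm]; exact hy y'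

lemma Bq_refl (D : Dj s V) : (Bq D).IsRefl := by
  intro x y h
  rw [Bq_symm]
  exact h

lemma orth_L [Finite V] (D : Dj s V) (ρ : s → ZMod 2) (hD : D.Ok ρ) :
    LinearMap.BilinForm.orthogonal (Bq D) D.𝓛 = D.𝓛 := by
  ext y
  rw [LinearMap.BilinForm.mem_orthogonal_iff]
  constructor
  · intro h
    refine self_orth D ρ hD y fun y' hy' => ?_
    rw [Bq_symm]
    exact h y' hy'
  · intro hy z hz
    show Bq D z y = 0
    have h3 := q_add D z y
    rw [hD.sing _ hz, hD.sing _ hy, hD.sing _ (D.𝓛.add_mem hz hy)] at h3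
    simpa using h3.symm

variable {P : Type} [Fintype P]

/-- the orthogonal of the range of the labels -/
noncomputable def Kh (D : Dj s V) (N : P → P → ZMod 2) (h : P → s → ZMod 2) :
    Submodule (ZMod 2) (s → V) :=
  LinearMap.ker ((rowL D N h).comp (LinearMap.inl (ZMod 2) (s → V) (P → V)))

lemma row_inl (D : Dj s V) (N : P → P → ZMod 2) (h : P → s → ZMod 2) (γ : s → V) (p : P) :
    rowL D N h (γ, 0) p = ∑ t, h p t • γ t := by
  show ∑ q, N p q • ((0 : V) + 0) + D.T (h p) 0 + ∑ t, h p t • γ t = _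
  simp only [add_zero, smul_zero, sum_const_zero, map_zero, zero_add]

lemma mem_Kh (D : Dj s V) (N : P → P → ZMod 2) (h : P → s → ZMod 2) (γ : s → V) :
    γ ∈ Kh D N h ↔ ∀ p, ∑ t, h p t • γ t = 0 := by
  unfold Kh
  rw [LinearMap.mem_ker]
  constructor
  · intro hh p
    rw [← row_inl D N h]
    exact congrFun hh p
  · intro hh
    funext p
    show rowL D N h (γ, 0) p = 0
    rw [row_inl, hh]

lemma pair_id (D : Dj s V) (h : P → s → ZMod 2) (x : P → V) (γ : s → V) :
    ∑ p, D.ω (x p) (∑ t, h p t • γ t) = ∑ t, D.ω (Mh h x t) (γ t) := by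
  have h5 : ∀ p, D.ω (x p) (∑ t, h p t • γ t) = ∑ t, h p t * D.ω (x p) (γ t) := by
    intro p
    rw [map_sum]
    exact sum_congr rfl fun t _ => by rw [map_smul, smul_eq_mul]
  rw [sum_congr rfl fun p _ => h5 p, sum_comm]
  refine sum_congr rfl fun t _ => ?_
  rw [Mh_apply, map_sum, LinearMap.sum_apply]
  exact sum_congr rfl fun p _ => by rw [map_smul, LinearMap.smul_apply, smul_eq_mul]

lemma orth_W (D : Dj s V) (hD : D.Sym) (nd : ∀ x, (∀ y, D.ω x y = 0) → x = 0)
    (N : P → P → ZMod 2) (h : P → s → ZMod 2) :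
    LinearMap.BilinForm.orthogonal (Bq D) (LinearMap.range (clL (V := V) h)) =
      (Kh D N h).map (LinearMap.inl (ZMod 2) (s → V) (s → V)) := by
  ext y
  rw [LinearMap.BilinForm.mem_orthogonal_iff]
  constructor
  · intro hy
    have h2 : ∀ t, y.2 t = 0 := by
      intro t
      refine nd _ fun v => ?_
      have h1 : Bq D (clL h (Pi.single t v, (0 : P → V))) y = 0 := hy _ ⟨_, rfl⟩
      rw [Bq_symm, clL_eq, map_zero, Bq_apply, Finset.sum_eq_single t] at h1
      · simpa using h1
      · intro t' _ ht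
        simp [Pi.single_eq_of_ne ht]
      · intro ht; exact absurd (mem_univ _) ht
    have h2' : y.2 = 0 := funext h2
    refine ⟨y.1, ?_, Prod.ext rfl h2'.symm⟩
    rw [SetLike.mem_coe, mem_Kh]
    intro p
    refine nd _ fun v => ?_
    rw [symm_of D hD]
    have h1 : Bq D (clL h ((0 : s → V), Pi.single p v)) y = 0 := hy _ ⟨_, rfl⟩
    rw [Bq_apply, clL_eq] at h1
    have h3 : ∑ t, D.ω (Mh h (Pi.single p v) t) (y.1 t) = 0 := by
      rw [← h1]
      refine sum_congr rfl fun t _ => ?_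
      simp [h2]
    rw [← pair_id, Finset.sum_eq_single p] at h3
    · rwa [Pi.single_eq_same] at h3
    · intro q _ hq
      rw [Pi.single_eq_of_ne hq, map_zero, LinearMap.zero_apply]
    · intro hp
      exact absurd (mem_univ _) hp
  · rintro ⟨γ, hγ, rfl⟩ z ⟨e, rfl⟩
    rw [SetLike.mem_coe, mem_Kh] at hγ
    show Bq D (clL h e) (γ, 0) = 0
    rw [Bq_apply, clL_eq]
    have h3 := pair_id D h e.2 γ
    rw [sum_congr rfl fun p _ => by rw [hγ p, map_zero], sum_const_zero] at h3
    rw [h3]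
    refine sum_congr rfl fun t _ => ?_
    simp

/-- the dimension of the preimage of `𝓛` -/
lemma finrank_pre0 [Finite V] (D : Dj s V) (ρ : s → ZMod 2) (hD : D.Ok ρ) (N : P → P → ZMod 2)
    (h : P → s → ZMod 2) :
    LinearMap.BilinForm.orthogonal (Bq D) (D.𝓛 ⊓ LinearMap.range (clL (V := V) h)) =
      D.𝓛 ⊔ (Kh D N h).map (LinearMap.inl (ZMod 2) (s → V) (s → V)) ∧
    finrank (ZMod 2) (D.𝓛.comap (clL h)) = finrank (ZMod 2) (D.pm ⊓ Kh D N h : Submodule (ZMod 2) (s → V)) +
      Fintype.card P * finrank (ZMod 2) V := by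
  have hfin : FiniteDimensional (ZMod 2) V := Module.Finite.of_finite
  have hnd := Bq_nondeg D hD.toSym hD.nd
  have hrf := Bq_refl D
  have hL := finrank_L D hD.card
  have hoL := orth_L D ρ hD
  have hoW := orth_W D hD.toSym hD.nd N h
  set W := LinearMap.range (clL (V := V) h) with hW
  set K0 := (Kh D N h).map (LinearMap.inl (ZMod 2) (s → V) (s → V)) with hK0
  have hoK : LinearMap.BilinForm.orthogonal (Bq D) K0 = W := by
    rw [← hoW, LinearMap.BilinForm.orthogonal_orthogonal hnd hrf]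
  have hinf : D.𝓛 ⊓ W = LinearMap.BilinForm.orthogonal (Bq D) (D.𝓛 ⊔ K0) := by
    apply le_antisymm
    · intro y hy
      rw [LinearMap.BilinForm.mem_orthogonal_iff]
      intro z hz
      obtain ⟨a, ha, b, hb, rfl⟩ := Submodule.mem_sup.1 hz
      have h1 : Bq D a y = 0 := by
        have := hy.1
        rw [← hoL] at this
        exact LinearMap.BilinForm.mem_orthogonal_iff.1 this a ha
      have h2 : Bq D b y = 0 := by
        have := hy.2
        rw [← hoK] at this
        exact LinearMap.BilinForm.mem_orthogonal_iff.1 this b hb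
      show Bq D (a + b) y = 0
      rw [map_add, LinearMap.add_apply, h1, h2, add_zero]
    · refine le_inf ?_ ?_
      · calc _ ≤ LinearMap.BilinForm.orthogonal (Bq D) D.𝓛 :=
              LinearMap.BilinForm.orthogonal_le le_sup_left
          _ = _ := hoL
      · calc _ ≤ LinearMap.BilinForm.orthogonal (Bq D) K0 :=
              LinearMap.BilinForm.orthogonal_le le_sup_right
          _ = _ := hoK
  have horth : LinearMap.BilinForm.orthogonal (Bq D) (D.𝓛 ⊓ W) = D.𝓛 ⊔ K0 := by
    rw [hinf, LinearMap.BilinForm.orthogonal_orthogonal hnd hrf]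
  refine ⟨horth, ?_⟩
  have h4 : finrank (ZMod 2) ((s → V) × (s → V)) = Fintype.card s * finrank (ZMod 2) V + Fintype.card s * finrank (ZMod 2) V := by
    rw [finrank_prod, finrank_pi_fintype]
    simp
  have h3 : finrank (ZMod 2) ((s → V) × (P → V)) = Fintype.card s * finrank (ZMod 2) V + Fintype.card P * finrank (ZMod 2) V := by
    rw [finrank_prod, finrank_pi_fintype, finrank_pi_fintype]
    simp
  have e1 := LinearMap.BilinForm.finrank_orthogonal hnd (D.𝓛 ⊓ W)
  have e2 := LinearMap.BilinForm.finrank_orthogonal hnd W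
  have e3 := Submodule.finrank_sup_add_finrank_inf_eq D.𝓛 K0
  have e4 := Submodule.finrank_le W
  have e4' := Submodule.finrank_le (D.𝓛 ⊓ W)
  rw [horth] at e1
  rw [hoW] at e2
  have e5 : D.𝓛 ⊓ K0 = (D.pm ⊓ Kh D N h).map (LinearMap.inl (ZMod 2) (s → V) (s → V)) := by
    ext y
    constructor
    · rintro ⟨h1, ⟨γ, hγ, rfl⟩⟩
      exact ⟨γ, ⟨h1, hγ⟩, rfl⟩
    · rintro ⟨γ, ⟨h1, hγ⟩, rfl⟩
      exact ⟨h1, ⟨γ, hγ, rfl⟩⟩
  have e6 : finrank (ZMod 2) (D.𝓛 ⊓ K0 : Submodule (ZMod 2) ((s → V) × (s → V))) =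
      finrank (ZMod 2) (D.pm ⊓ Kh D N h : Submodule (ZMod 2) (s → V)) := by
    rw [e5]
    exact (LinearEquiv.finrank_eq (Submodule.equivMapOfInjective _ LinearMap.inl_injective _)).symm
  -- the preimage
  let E := D.𝓛.comap (clL (V := V) h)
  let g : E →ₗ[ZMod 2] (D.𝓛 ⊓ W : Submodule (ZMod 2) ((s → V) × (s → V))) :=
    (clL h).restrict (fun x hx => ⟨hx, ⟨x, rfl⟩⟩)
  have hgs : Function.Surjective g := by
    rintro ⟨y, hy, ⟨x, hx⟩⟩
    refine ⟨⟨x, by show clL h x ∈ D.𝓛; rw [hx]; exact hy⟩, ?_⟩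
    apply Subtype.ext
    exact hx
  have h1 := LinearMap.finrank_range_add_finrank_ker g
  rw [LinearMap.range_eq_top.2 hgs, finrank_top] at h1
  have h2 := LinearMap.finrank_range_add_finrank_ker (clL (V := V) h)
  have hker : finrank (ZMod 2) (LinearMap.ker g) = finrank (ZMod 2) (LinearMap.ker (clL (V := V) h)) := by
    refine LinearEquiv.finrank_eq ?_
    refine LinearEquiv.ofBijective ((E.subtype.comp (LinearMap.ker g).subtype).codRestrict (LinearMap.ker (clL h)) ?_) ⟨?_, ?_⟩
    · rintro ⟨⟨x, hx⟩, hx2⟩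
      rw [LinearMap.mem_ker] at hx2 ⊢
      exact congrArg Subtype.val hx2
    · intro a b hab
      have := congrArg Subtype.val hab
      exact Subtype.ext (Subtype.ext this)
    · rintro ⟨x, hx⟩
      rw [LinearMap.mem_ker] at hx
      refine ⟨⟨⟨x, ?_⟩, ?_⟩, rfl⟩
      · show clL h x ∈ D.𝓛
        rw [hx]; exact Submodule.zero_mem _
      · rw [LinearMap.mem_ker]
        exact Subtype.ext hx
  show finrank (ZMod 2) E = _
  have e7 := Submodule.finrank_le K0
  have e8 := Submodule.finrank_le (D.𝓛 ⊔ K0)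
  rw [← hW] at h2
  omega

end

/-- **JQ-PAR0** -/
theorem t_PAR0 (hID : S_ID) : S_PAR0 := by
  intro s V P _ _ _ _ _ D ρ hD N h hR
  have hfin : FiniteDimensional (ZMod 2) V := Module.Finite.of_finite
  obtain ⟨horth, hEfin⟩ := finrank_pre0 D ρ hD N h
  let E := D.𝓛.comap (clL (V := V) h)
  let B : E →ₗ[ZMod 2] E →ₗ[ZMod 2] ZMod 2 :=
    LinearMap.mk₂ (ZMod 2) (fun e e' => ∑ p, D.ω (e'.1.2 p) (rowL D N h e.1 p))
      (by
        intro a b c
        rw [← sum_add_distrib]
        refine sum_congr rfl fun p _ => ?_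
        simp only [Submodule.coe_add, map_add, Pi.add_apply])
      (by
        intro a b c
        rw [smul_eq_mul, mul_sum]
        refine sum_congr rfl fun p _ => ?_
        simp only [Submodule.coe_smul, map_smul, Pi.smul_apply, smul_eq_mul])
      (by
        intro a b c
        rw [← sum_add_distrib]
        refine sum_congr rfl fun p _ => ?_
        simp only [Submodule.coe_add, Prod.snd_add, map_add, Pi.add_apply, LinearMap.add_apply])
      (by
        intro a b c
        rw [smul_eq_mul, mul_sum]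
        refine sum_congr rfl fun p _ => ?_
        simp only [Submodule.coe_smul, Prod.smul_snd, map_smul, Pi.smul_apply, LinearMap.smul_apply, smul_eq_mul])
  have hBap : ∀ e e' : E, B e e' = ∑ p, D.ω (e'.1.2 p) (rowL D N h e.1 p) := fun _ _ => rfl
  have hBalt : ∀ e : E, B e e = 0 := by
    intro e
    rw [hBap, hID s V P D hD.toSym N h hR e.1]
    exact hD.sing _ e.2
  have h1 := even_rank_top B hBalt
  have hVeven := even_V D hD.toSym hD.nd
  have hcl : ∀ γ : s → V, clL h (γ, (0 : P → V)) = (γ, 0) := by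
    intro γ
    rw [clL_eq, map_zero]
  -- the radical
  let Sl := Sel D N h
  let pm' : Submodule (ZMod 2) ((s → V) × (P → V)) := D.pm.map (LinearMap.inl (ZMod 2) (s → V) (P → V))
  have hrad : (LinearMap.ker B).map E.subtype = Sl ⊔ pm' := by
    apply le_antisymm
    · rintro _ ⟨⟨e, he⟩, hk, rfl⟩
      have hk' : B ⟨e, he⟩ = 0 := LinearMap.mem_ker.1 hk
      have hz : ∀ e' ∈ E, ∑ p, D.ω (e'.2 p) (rowL D N h e p) = 0 := fun e' he' =>
        LinearMap.congr_fun hk' ⟨e', he'⟩
      obtain ⟨γ0, hγ0⟩ := dbl_ann D hD.toSym hD.nd h (rowL D N h e) (by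
        intro x hx
        refine hz (0, x) ?_
        show clL h ((0 : s → V), x) ∈ D.𝓛
        have : clL h ((0 : s → V), x) = 0 := by
          rw [clL_eq]; exact Prod.ext rfl hx
        rw [this]; exact Submodule.zero_mem _)
      have hγo : ((γ0, 0) : (s → V) × (s → V)) ∈ LinearMap.BilinForm.orthogonal (Bq D)
          (D.𝓛 ⊓ LinearMap.range (clL (V := V) h)) := by
        rw [LinearMap.BilinForm.mem_orthogonal_iff]
        rintro y' ⟨hy', ⟨e', rfl⟩⟩
        have h2 := hz e' hy'
        show Bq D (clL h e') (γ0, 0) = 0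
        rw [Bq_apply, clL_eq]
        rw [sum_congr rfl fun p _ => by rw [hγ0 p], pair_id] at h2
        rw [← h2]
        refine sum_congr rfl fun t _ => ?_
        simp
      rw [horth] at hγo
      obtain ⟨l, hl, κ, ⟨k, hk1, rfl⟩, hlk⟩ := Submodule.mem_sup.1 hγo
      rw [SetLike.mem_coe, mem_Kh] at hk1
      have hl2 : l.2 = 0 := by
        have := congrArg Prod.snd hlk
        simpa using this
      have hl1 : l.1 + k = γ0 := congrArg Prod.fst hlk
      have hγL : ((l.1, 0) : (s → V) × (s → V)) ∈ D.𝓛 := by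
        rw [← hl2]
        exact hl
      have hγ : ∀ p, rowL D N h e p = ∑ t, h p t • l.1 t := by
        intro p
        rw [hγ0 p, ← hl1]
        simp only [Pi.add_apply, smul_add, sum_add_distrib]
        rw [hk1 p, add_zero]
      rw [Submodule.mem_sup]
      refine ⟨e + (l.1, 0), ⟨?_, ?_⟩, (l.1, 0), ⟨l.1, hγL, rfl⟩, ?_⟩
      · show clL h (e + (l.1, 0)) ∈ D.𝓛
        rw [map_add, hcl]
        exact D.𝓛.add_mem he hγL
      · rw [SetLike.mem_coe, LinearMap.mem_ker, map_add]
        funext p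
        rw [Pi.add_apply, row_inl, hγ]
        exact chr _
      · rw [add_assoc]
        have : ((l.1, 0) : (s → V) × (P → V)) + (l.1, 0) = 0 :=
          Prod.ext (funext fun t => chr _) (funext fun t => chr _)
        rw [this, add_zero]
        rfl
    · rw [sup_le_iff]
      constructor
      · rintro e ⟨he1, he2⟩
        refine ⟨⟨e, he1⟩, ?_, rfl⟩
        rw [SetLike.mem_coe, LinearMap.mem_ker]
        refine LinearMap.ext fun e' => ?_
        rw [hBap, LinearMap.mem_ker.1 he2]
        simp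
      · rintro _ ⟨γ, hγ, rfl⟩
        have hγL : ((γ, 0) : (s → V) × (s → V)) ∈ D.𝓛 := hγ
        refine ⟨⟨(γ, 0), by show clL h (γ, 0) ∈ D.𝓛; rw [hcl]; exact hγL⟩, ?_, rfl⟩
        rw [SetLike.mem_coe, LinearMap.mem_ker]
        refine LinearMap.ext fun e' => ?_
        rw [hBap, LinearMap.zero_apply]
        have he' : clL h e'.1 ∈ D.𝓛 := e'.2
        have h3 := q_add D (γ, 0) (clL h e'.1)
        rw [hD.sing _ hγL, hD.sing _ he', hD.sing _ (D.𝓛.add_mem hγL he'), Bq_apply, clL_eq] at h3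
        have h4 : ∑ p, D.ω (e'.1.2 p) (rowL D N h (γ, 0) p) = ∑ t, D.ω (Mh h e'.1.2 t) (γ t) := by
          rw [← pair_id]
          exact sum_congr rfl fun p _ => by rw [row_inl]
        rw [h4]
        simpa using h3.symm
  have hinf : Sl ⊓ pm' = (D.pm ⊓ Kh D N h).map (LinearMap.inl (ZMod 2) (s → V) (P → V)) := by
    ext e
    constructor
    · rintro ⟨⟨he1, he2⟩, ⟨γ, hγ, rfl⟩⟩
      exact ⟨γ, ⟨hγ, he2⟩, rfl⟩
    · rintro ⟨γ, ⟨hγ, hk⟩, rfl⟩
      refine ⟨⟨?_, hk⟩, ⟨γ, hγ, rfl⟩⟩
      show clL h (γ, 0) ∈ D.𝓛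
      rw [hcl]
      exact hγ
  have e1 : finrank (ZMod 2) (LinearMap.ker B) = finrank (ZMod 2) ((LinearMap.ker B).map E.subtype) :=
    LinearEquiv.finrank_eq (Submodule.equivMapOfInjective _ E.injective_subtype _)
  have e2 : finrank (ZMod 2) D.pm = finrank (ZMod 2) pm' :=
    LinearEquiv.finrank_eq (Submodule.equivMapOfInjective _ LinearMap.inl_injective _)
  have e3 := Submodule.finrank_sup_add_finrank_inf_eq Sl pm'
  have e4 : finrank (ZMod 2) (Sl ⊓ pm' : Submodule (ZMod 2) ((s → V) × (P → V))) =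
      finrank (ZMod 2) (D.pm ⊓ Kh D N h : Submodule (ZMod 2) (s → V)) := by
    rw [hinf]
    exact (LinearEquiv.finrank_eq (Submodule.equivMapOfInjective _ LinearMap.inl_injective _)).symm
  rw [← hrad, ← e1, ← e2, e4] at e3
  have hE2 : finrank (ZMod 2) E = finrank (ZMod 2) (D.pm ⊓ Kh D N h : Submodule (ZMod 2) (s → V)) +
      Fintype.card P * finrank (ZMod 2) V := hEfin
  have hPV : Even (Fintype.card P * finrank (ZMod 2) V) := hVeven.mul_left _
  have hev : Even (finrank (ZMod 2) Sl + finrank (ZMod 2) D.pm) := by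
    obtain ⟨a, ha⟩ := h1
    obtain ⟨b, hb⟩ := hPV
    rw [hE2, hb] at ha
    exact ⟨a - b, by omega⟩
  obtain ⟨k, hk⟩ := hev
  have h5 : ((finrank (ZMod 2) Sl : ℕ) : ZMod 2) + ((finrank (ZMod 2) D.pm : ℕ) : ZMod 2) = 0 := by
    rw [← Nat.cast_add, hk, Nat.cast_add]
    exact z2s _
  exact z2 _ _ h5

end Pool.Agent.Q283.FT.A
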