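import Mathlib

set_option autoImplicit false

/-! The rank of an alternating form is even
(proof of `MP_8ee885_co.ParityOfRank`, copied). -/

namespace Pool.Agent.Q283.FT.A

open Module

section alt

variable {K V : Type} [Field K] [AddCommGroup V] [Module K V] [FiniteDimensional K V]
  (B : V →ₗ[K] V →ₗ[K] K)

/-- The radical of the restriction of `B` to `U`. -/
def rad (U : Submodule K V) : Submodule K V where
  carrier := {z | z ∈ U ∧ ∀ w ∈ U, B z w = 0}
  zero_mem' := ⟨U.zero_mem, by simp⟩
  add_mem' := by
    rintro a b ⟨h1, h2⟩ ⟨h3, h4⟩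
    exact ⟨U.add_mem h1 h3, fun w hw => by simp [h2 w hw, h4 w hw]⟩
  smul_mem' := by
    rintro c a ⟨h1, h2⟩
    exact ⟨U.smul_mem c h1, fun w hw => by simp [h2 w hw]⟩

omit [FiniteDimensional K V] in
theorem mem_rad (U : Submodule K V) (z : V) : z ∈ rad B U ↔ z ∈ U ∧ ∀ w ∈ U, B z w = 0 := Iff.rfl

theorem even_rank (hB : ∀ x, B x x = 0) : ∀ (n : ℕ) (U : Submodule K V), finrank K U = n →
    Even (finrank K U + finrank K (rad B U)) := by
  have hskew : ∀ x y, B x y = - B y x := by
    intro x y
    have h := hB (x + y)
    simp only [LinearMap.add_apply, map_add] at h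
    rw [hB x, hB y] at h
    linear_combination h
  intro n
  induction n using Nat.strong_induction_on with
  | _ n ih =>
    intro U hU
    by_cases h0 : ∀ x ∈ U, ∀ y ∈ U, B x y = 0
    · have : rad B U = U := by
        ext z
        rw [mem_rad]
        exact ⟨fun h => h.1, fun h => ⟨h, h0 z h⟩⟩
      rw [this]
      exact ⟨_, rfl⟩
    · push Not at h0
      obtain ⟨x, hx, y, hy, hxy⟩ := h0
      have hyx : B y x ≠ 0 := by
        intro h
        apply hxy
        rw [hskew, h, neg_zero]
      -- the map to the plane
      let f : U →ₗ[K] (Fin 2 → K) :=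
        LinearMap.pi ![(B x).comp U.subtype, (B y).comp U.subtype]
      have hf : ∀ z : U, f z = ![B x z, B y z] := by
        intro z
        ext i
        fin_cases i <;> rfl
      have hsurj : LinearMap.range f = ⊤ := by
        rw [LinearMap.range_eq_top]
        intro c
        refine ⟨(c 0 / B x y) • ⟨y, hy⟩ + (c 1 / B y x) • ⟨x, hx⟩, ?_⟩
        rw [hf]
        ext i
        fin_cases i
        · simp [hB, hxy]
        · simp [hB, hyx]
      let U' : Submodule K V := (LinearMap.ker f).map U.subtype
      have hU' : ∀ z, z ∈ U' ↔ z ∈ U ∧ B x z = 0 ∧ B y z = 0 := by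
        intro z
        constructor
        · rintro ⟨w, hw, rfl⟩
          have h1 : f w = 0 := hw
          rw [hf] at h1
          exact ⟨w.2, congrFun h1 0, congrFun h1 1⟩
        · rintro ⟨h1, h2, h3⟩
          refine ⟨⟨z, h1⟩, ?_, rfl⟩
          show f ⟨z, h1⟩ = 0
          rw [hf]
          ext i
          fin_cases i
          · exact h2
          · exact h3
      have hd : finrank K U' = finrank K (LinearMap.ker f) :=
        LinearEquiv.finrank_eq (Submodule.equivMapOfInjective _ U.injective_subtype _).symm
      have hrk := LinearMap.finrank_range_add_finrank_ker f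
      rw [hsurj, finrank_top, finrank_fin_fun] at hrk
      have hrad : rad B U' = rad B U := by
        ext z
        rw [mem_rad, mem_rad, hU']
        constructor
        · rintro ⟨⟨h1, h2, h3⟩, h4⟩
          refine ⟨h1, fun w hw => ?_⟩
          -- decompose `w`
          let a := B x w / B x y
          let b := B y w / B y x
          have hw' : w - a • y - b • x ∈ U' := by
            rw [hU']
            refine ⟨U.sub_mem (U.sub_mem hw (U.smul_mem _ hy)) (U.smul_mem _ hx), ?_, ?_⟩
            · simp only [map_sub, map_smul, smul_eq_mul, hB, mul_zero, sub_zero, a]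
              rw [div_mul_cancel₀ _ hxy, sub_self]
            · simp only [map_sub, map_smul, smul_eq_mul, hB, mul_zero, sub_zero, b]
              rw [div_mul_cancel₀ _ hyx, sub_self]
          have h5 := h4 _ hw'
          simp only [map_sub, map_smul, smul_eq_mul] at h5
          rw [hskew z y, h3, hskew z x, h2] at h5
          simpa using h5
        · rintro ⟨h1, h2⟩
          refine ⟨⟨h1, ?_, ?_⟩, ?_⟩
          · rw [hskew, h2 x hx, neg_zero]
          · rw [hskew, h2 y hy, neg_zero]
          · intro w hw
            exact h2 w ((hU' w).1 hw).1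
      have := ih (finrank K U') (by omega) U' rfl
      rw [hrad] at this
      obtain ⟨k, hk⟩ := this
      exact ⟨k + 1, by omega⟩

end alt

end Pool.Agent.Q283.FT.A
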