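import Pool.Agent.Q283.FT.A.ID

set_option autoImplicit false
set_option linter.unusedVariables false

namespace Pool.Agent.Q283.FT.A

open Finset Module Pool.Agent.Q283.FT
open scoped Classical

section

variable {s V : Type} [Fintype s] [AddCommGroup V] [Module (ZMod 2) V]

lemma chr (x : V) : x + x = 0 := by
  have h : (2 : ZMod 2) • x = x + x := two_smul _ x
  rw [← h, show (2 : ZMod 2) = 0 from rfl, zero_smul]

lemma eq_of_add {x y : V} (h : x + y = 0) : x = y := by
  have h2 := chr y
  calc x = x + (y + y) := by rw [h2, add_zero]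
    _ = (x + y) + y := by rw [add_assoc]
    _ = y := by rw [h, zero_add]

/-- the bilinear form of `q` -/
noncomputable def Bq (D : Dj s V) : ((s → V) × (s → V)) →ₗ[ZMod 2] ((s → V) × (s → V)) →ₗ[ZMod 2] ZMod 2 :=
  LinearMap.mk₂ (ZMod 2) (fun y y' => ∑ t, (D.ω (y.2 t) (y'.1 t) + D.ω (y'.2 t) (y.1 t) +
    (D.ω (y.2 t) (D.T (Pi.single t 1) (y'.2 t)) + D.ω (y'.2 t) (D.T (Pi.single t 1) (y.2 t)))))
    (by
      intro a b c
      rw [← sum_add_distrib]
      refine sum_congr rfl fun t _ => ?_
      simp only [Prod.snd_add, Prod.fst_add, Pi.add_apply, map_add, LinearMap.add_apply]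
      ring)
    (by
      intro c a b
      rw [smul_eq_mul, mul_sum]
      refine sum_congr rfl fun t _ => ?_
      simp only [Prod.smul_snd, Prod.smul_fst, Pi.smul_apply, map_smul, LinearMap.smul_apply, smul_eq_mul]
      ring)
    (by
      intro a b c
      rw [← sum_add_distrib]
      refine sum_congr rfl fun t _ => ?_
      simp only [Prod.snd_add, Prod.fst_add, Pi.add_apply, map_add, LinearMap.add_apply]
      ring)
    (by
      intro c a b
      rw [smul_eq_mul, mul_sum]
      refine sum_congr rfl fun t _ => ?_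
      simp only [Prod.smul_snd, Prod.smul_fst, Pi.smul_apply, map_smul, LinearMap.smul_apply, smul_eq_mul]
      ring)

lemma Bq_apply (D : Dj s V) (y y' : (s → V) × (s → V)) : Bq D y y' =
    ∑ t, (D.ω (y.2 t) (y'.1 t) + D.ω (y'.2 t) (y.1 t) +
    (D.ω (y.2 t) (D.T (Pi.single t 1) (y'.2 t)) + D.ω (y'.2 t) (D.T (Pi.single t 1) (y.2 t)))) := rfl

lemma q_add (D : Dj s V) (y y' : (s → V) × (s → V)) : D.q (y + y') = D.q y + D.q y' + Bq D y y' := by
  rw [Bq_apply]
  unfold Dj.q
  simp only [Prod.snd_add, Prod.fst_add, Pi.add_apply, map_add, LinearMap.add_apply, sum_add_distrib]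
  ring

lemma Bq_symm (D : Dj s V) (y y' : (s → V) × (s → V)) : Bq D y y' = Bq D y' y := by
  rw [Bq_apply, Bq_apply]
  exact sum_congr rfl fun t _ => by ring

variable {P : Type} [Fintype P]

/-- polarised identity -/
lemma pol (D : Dj s V) (hD : D.Sym) (N : P → P → ZMod 2) (h : P → s → ZMod 2) (hR : Rec N h D.s₀)
    (e e' : (s → V) × (P → V)) :
    ∑ p, D.ω (e.2 p) (rowL D N h e' p) + ∑ p, D.ω (e'.2 p) (rowL D N h e p) =
      Bq D (clL h e) (clL h e') := by
  have h1 := t_ID s V P D hD N h hR (e + e')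
  have h2 := t_ID s V P D hD N h hR e
  have h3 := t_ID s V P D hD N h hR e'
  rw [map_add, map_add, q_add, ← h2, ← h3] at h1
  simp only [Prod.snd_add, Pi.add_apply, map_add, LinearMap.add_apply, sum_add_distrib] at h1
  linear_combination h1

/-- the map `x ↦ (∑ p, h p t • x p)_t` -/
noncomputable def Mh (h : P → s → ZMod 2) : (P → V) →ₗ[ZMod 2] (s → V) where
  toFun x t := ∑ p, h p t • x p
  map_add' x y := by
    funext t
    simp only [Pi.add_apply, smul_add, sum_add_distrib]
  map_smul' c x := by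
    funext t
    simp only [Pi.smul_apply, RingHom.id_apply, smul_sum, smul_comm c]

lemma Mh_apply (h : P → s → ZMod 2) (x : P → V) (t : s) : Mh h x t = ∑ p, h p t • x p := rfl

lemma Mh_single (h : P → s → ZMod 2) (p : P) (v : V) (t : s) : Mh h (Pi.single p v) t = h p t • v := by
  rw [Mh_apply, Finset.sum_eq_single p]
  · rw [Pi.single_eq_same]
  · intro q _ hq
    rw [Pi.single_eq_of_ne hq, smul_zero]
  · intro hp
    exact absurd (mem_univ _) hp

lemma sum_single (g : (s → V) →ₗ[ZMod 2] ZMod 2) (y : s → V) :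
    g y = ∑ t, g (Pi.single t (y t)) := by
  conv_lhs => rw [← Finset.univ_sum_single y]
  rw [map_sum]

lemma om_surj [Finite V] (D : Dj s V) (hD : D.Sym) (nd : ∀ x, (∀ y, D.ω x y = 0) → x = 0)
    (f : V →ₗ[ZMod 2] ZMod 2) : ∃ γ : V, ∀ v, D.ω v γ = f v := by
  have hinj : Function.Injective D.ω.flip := by
    rw [injective_iff_map_eq_zero]
    intro γ hγ
    refine nd γ fun y => ?_
    rw [symm_of D hD]
    exact LinearMap.congr_fun hγ y
  have hfin : FiniteDimensional (ZMod 2) V := Module.Finite.of_finite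
  have hsurj : Function.Surjective D.ω.flip := by
    refine (LinearMap.injective_iff_surjective_of_finrank_eq_finrank ?_).1 hinj
    exact (Subspace.dual_finrank_eq).symm
  obtain ⟨γ, hγ⟩ := hsurj f
  exact ⟨γ, fun v => LinearMap.congr_fun hγ v⟩

/-- double annihilator -/
lemma dbl_ann [Finite V] (D : Dj s V) (hD : D.Sym) (nd : ∀ x, (∀ y, D.ω x y = 0) → x = 0)
    (h : P → s → ZMod 2) (r : P → V)
    (hr : ∀ x : P → V, Mh h x = 0 → ∑ p, D.ω (x p) (r p) = 0) :
    ∃ γ : s → V, ∀ p, r p = ∑ t, h p t • γ t := by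
  have hfin : FiniteDimensional (ZMod 2) V := Module.Finite.of_finite
  let f : (P → V) →ₗ[ZMod 2] ZMod 2 := ∑ p, (D.ω.flip (r p)).comp (LinearMap.proj p)
  have hf : ∀ x : P → V, f x = ∑ p, D.ω (x p) (r p) := by
    intro x
    simp only [f, LinearMap.sum_apply, LinearMap.comp_apply, LinearMap.proj_apply, LinearMap.flip_apply]
  have hmem : f ∈ LinearMap.range (Mh (V := V) h).dualMap := by
    rw [LinearMap.range_dualMap_eq_dualAnnihilator_ker, Submodule.mem_dualAnnihilator]
    intro x hx
    rw [hf]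
    exact hr x (LinearMap.mem_ker.1 hx)
  obtain ⟨g, hg⟩ := hmem
  have hg' : ∀ x : P → V, g (Mh h x) = ∑ p, D.ω (x p) (r p) := by
    intro x
    rw [← hf, ← hg]
    rfl
  have hex : ∀ t : s, ∃ γ : V, ∀ v, D.ω v γ = g (Pi.single t v) := by
    intro t
    obtain ⟨γ, hγ⟩ := om_surj D hD nd (g.comp (LinearMap.single (ZMod 2) (fun _ : s => V) t))
    exact ⟨γ, fun v => by rw [hγ]; rfl⟩
  choose γ hγ using hex
  refine ⟨γ, fun p => ?_⟩
  refine eq_of_add (nd _ fun y => ?_)
  rw [symm_of D hD, map_add]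
  have h1 := hg' (Pi.single p y)
  have h2 : ∑ q, D.ω ((Pi.single p y : P → V) q) (r q) = D.ω y (r p) := by
    rw [Finset.sum_eq_single p]
    · rw [Pi.single_eq_same]
    · intro q _ hq
      rw [Pi.single_eq_of_ne hq, map_zero, LinearMap.zero_apply]
    · intro hp
      exact absurd (mem_univ _) hp
  rw [h2, sum_single] at h1
  rw [← h1, map_sum]
  have h3 : ∀ t, g (Pi.single t (Mh h (Pi.single p y) t)) = D.ω y (h p t • γ t) := by
    intro t
    rw [Mh_single, ← hγ, map_smul, LinearMap.smul_apply, map_smul]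
  rw [sum_congr rfl fun t _ => h3 t]
  exact z2s _

/-- surjectivity -/
lemma Mh_surj [Finite V] (h : P → s → ZMod 2) (hS : Spn h) : Function.Surjective (Mh (V := V) h) := by
  have hfin : FiniteDimensional (ZMod 2) V := Module.Finite.of_finite
  rw [← LinearMap.dualMap_injective_iff, injective_iff_map_eq_zero]
  intro g hg
  refine LinearMap.ext fun y => ?_
  have h0 : ∀ v : V, (fun t => g (Pi.single t v)) = (0 : s → ZMod 2) := by
    intro v
    refine hS _ fun p => ?_
    have h1 : g (Mh h (Pi.single p v)) = 0 := LinearMap.congr_fun hg _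
    rw [sum_single] at h1
    rw [← h1]
    refine sum_congr rfl fun t _ => ?_
    rw [Mh_single, Pi.single_smul, map_smul, smul_eq_mul, mul_comm]
  rw [sum_single, LinearMap.zero_apply]
  refine sum_eq_zero fun t _ => ?_
  exact congrFun (h0 (y t)) t

lemma clL_eq (h : P → s → ZMod 2) (e : (s → V) × (P → V)) : clL h e = (e.1, Mh h e.2) := rfl

lemma clL_surj [Finite V] (h : P → s → ZMod 2) (hS : Spn h) : Function.Surjective (clL (V := V) h) := by
  rintro ⟨δ, ψ⟩
  obtain ⟨x, hx⟩ := Mh_surj h hS ψ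
  exact ⟨(δ, x), by rw [clL_eq, hx]⟩

/-- the dimension of the preimage of `𝓛` -/
lemma finrank_pre [Finite V] (D : Dj s V) (hc : Nat.card D.𝓛 = Nat.card V ^ Fintype.card s)
    (h : P → s → ZMod 2) (hS : Spn h) :
    finrank (ZMod 2) (D.𝓛.comap (clL h)) = Fintype.card P * finrank (ZMod 2) V := by
  have hfin : FiniteDimensional (ZMod 2) V := Module.Finite.of_finite
  have hL : finrank (ZMod 2) D.𝓛 = Fintype.card s * finrank (ZMod 2) V := by
    have h1 := Module.natCard_eq_pow_finrank (K := ZMod 2) (V := D.𝓛)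
    have h2 := Module.natCard_eq_pow_finrank (K := ZMod 2) (V := V)
    rw [h1, h2, ← pow_mul, Nat.card_zmod] at hc
    have := Nat.pow_right_injective (le_refl 2) hc
    rw [this, mul_comm]
  let E := D.𝓛.comap (clL h)
  let g : E →ₗ[ZMod 2] D.𝓛 := (clL h).restrict (fun x hx => hx)
  have hgs : Function.Surjective g := by
    rintro ⟨y, hy⟩
    obtain ⟨x, hx⟩ := clL_surj h hS y
    refine ⟨⟨x, by show clL h x ∈ D.𝓛; rw [hx]; exact hy⟩, ?_⟩
    apply Subtype.ext
    exact hx
  have h1 := LinearMap.finrank_range_add_finrank_ker g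
  rw [LinearMap.range_eq_top.2 hgs, finrank_top] at h1
  have h2 := LinearMap.finrank_range_add_finrank_ker (clL (V := V) h)
  rw [LinearMap.range_eq_top.2 (clL_surj h hS), finrank_top] at h2
  have hker : finrank (ZMod 2) (LinearMap.ker g) = finrank (ZMod 2) (LinearMap.ker (clL (V := V) h)) := by
    refine LinearEquiv.finrank_eq ?_
    refine LinearEquiv.ofBijective ((E.subtype.comp (LinearMap.ker g).subtype).codRestrict (LinearMap.ker (clL h)) ?_) ⟨?_, ?_⟩
    · rintro ⟨⟨x, hx⟩, hx2⟩
      rw [LinearMap.mem_ker] at hx2 ⊢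
      exact congrArg Subtype.val hx2
    · intro a b hab
      have := congrArg Subtype.val hab
      exact Subtype.ext (Subtype.ext this)
    · rintro ⟨x, hx⟩
      rw [LinearMap.mem_ker] at hx
      refine ⟨⟨⟨x, ?_⟩, ?_⟩, rfl⟩
      · show clL h x ∈ D.𝓛
        rw [hx]; exact Submodule.zero_mem _
      · rw [LinearMap.mem_ker]
        exact Subtype.ext hx
  have h3 : finrank (ZMod 2) ((s → V) × (P → V)) = Fintype.card s * finrank (ZMod 2) V + Fintype.card P * finrank (ZMod 2) V := by
    rw [finrank_prod, finrank_pi_fintype, finrank_pi_fintype]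
    simp
  have h4 : finrank (ZMod 2) ((s → V) × (s → V)) = Fintype.card s * finrank (ZMod 2) V + Fintype.card s * finrank (ZMod 2) V := by
    rw [finrank_prod, finrank_pi_fintype]
    simp
  show finrank (ZMod 2) E = _
  omega

end

end Pool.Agent.Q283.FT.A
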