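import Pool.Agent.Q283.FT.A.Lin
import Pool.Agent.Q283.FT.A.Even

set_option autoImplicit false
set_option linter.unusedVariables false

namespace Pool.Agent.Q283.FT.A

open Finset Module Pool.Agent.Q283.FT
open scoped Classical

/-- the dimension of the radical and that of the space have the same parity -/
lemma even_rank_top {W : Type} [AddCommGroup W] [Module (ZMod 2) W] [FiniteDimensional (ZMod 2) W]
    (B : W →ₗ[ZMod 2] W →ₗ[ZMod 2] ZMod 2) (hB : ∀ x, B x x = 0) :
    Even (finrank (ZMod 2) W + finrank (ZMod 2) (LinearMap.ker B)) := by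
  have h := even_rank B hB _ ⊤ rfl
  rw [finrank_top] at h
  have e : rad B ⊤ = LinearMap.ker B := by
    ext z
    rw [mem_rad, LinearMap.mem_ker]
    constructor
    · rintro ⟨-, h2⟩
      exact LinearMap.ext fun w => h2 w Submodule.mem_top
    · intro h2
      exact ⟨Submodule.mem_top, fun w _ => by rw [h2]; rfl⟩
  rwa [e] at h

section

variable {s V : Type} [Fintype s] [AddCommGroup V] [Module (ZMod 2) V]

lemma even_V [Finite V] (D : Dj s V) (hD : D.Sym) (nd : ∀ x, (∀ y, D.ω x y = 0) → x = 0) :
    Even (finrank (ZMod 2) V) := by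
  have hfin : FiniteDimensional (ZMod 2) V := Module.Finite.of_finite
  have h := even_rank_top D.ω hD.alt
  have e : LinearMap.ker D.ω = ⊥ := by
    rw [LinearMap.ker_eq_bot']
    intro x hx
    exact nd x fun y => by rw [hx]; rfl
  rw [e, finrank_bot, add_zero] at h
  exact h

/-- the bilinear form of `q` is nondegenerate -/
lemma Bq_nd (D : Dj s V) (hD : D.Sym) (nd : ∀ x, (∀ y, D.ω x y = 0) → x = 0) (y : (s → V) × (s → V))
    (h : ∀ y', Bq D y y' = 0) : y = 0 := by
  have h2 : ∀ t, y.2 t = 0 := by
    intro t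
    refine nd _ fun v => ?_
    have h1 := h (Pi.single t v, 0)
    rw [Bq_apply, Finset.sum_eq_single t] at h1
    · simpa using h1
    · intro t' _ ht
      simp [Pi.single_eq_of_ne ht]
    · intro ht; exact absurd (mem_univ _) ht
  have h1 : ∀ t, y.1 t = 0 := by
    intro t
    refine nd _ fun v => ?_
    have h1 := h (0, Pi.single t v)
    rw [Bq_apply, Finset.sum_eq_single t] at h1
    · rw [symm_of D hD]
      simpa [h2] using h1
    · intro t' _ ht
      simp [Pi.single_eq_of_ne ht, h2]
    · intro ht; exact absurd (mem_univ _) ht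
  exact Prod.ext (funext h1) (funext h2)

/-- a maximal totally singular space is its own orthogonal -/
lemma self_orth [Finite V] (D : Dj s V) (ρ : s → ZMod 2) (hD : D.Ok ρ) (y : (s → V) × (s → V))
    (h : ∀ y' ∈ D.𝓛, Bq D y y' = 0) : y ∈ D.𝓛 := by
  have hfin : FiniteDimensional (ZMod 2) V := Module.Finite.of_finite
  let Φ : ((s → V) × (s → V)) →ₗ[ZMod 2] Dual (ZMod 2) D.𝓛 := (D.𝓛.subtype.dualMap).comp (Bq D)
  have hinj : Function.Injective (Bq D) := by
    rw [injective_iff_map_eq_zero]
    intro z hz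
    exact Bq_nd D hD.toSym hD.nd z fun y' => by rw [hz]; rfl
  have hsur : Function.Surjective (Bq D) :=
    (LinearMap.injective_iff_surjective_of_finrank_eq_finrank (Subspace.dual_finrank_eq).symm).1 hinj
  have hsur2 : Function.Surjective Φ :=
    (LinearMap.dualMap_surjective_of_injective D.𝓛.injective_subtype).comp hsur
  have h1 := LinearMap.finrank_range_add_finrank_ker Φ
  rw [LinearMap.range_eq_top.2 hsur2, finrank_top, Subspace.dual_finrank_eq] at h1
  have hL : finrank (ZMod 2) D.𝓛 = Fintype.card s * finrank (ZMod 2) V := by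
    have h1 := Module.natCard_eq_pow_finrank (K := ZMod 2) (V := D.𝓛)
    have h2 := Module.natCard_eq_pow_finrank (K := ZMod 2) (V := V)
    have hc := hD.card
    rw [h1, h2, ← pow_mul, Nat.card_zmod] at hc
    have := Nat.pow_right_injective (le_refl 2) hc
    rw [this, mul_comm]
  have h4 : finrank (ZMod 2) ((s → V) × (s → V)) = Fintype.card s * finrank (ZMod 2) V + Fintype.card s * finrank (ZMod 2) V := by
    rw [finrank_prod, finrank_pi_fintype]
    simp
  have hle : D.𝓛 ≤ LinearMap.ker Φ := by
    intro z hz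
    rw [LinearMap.mem_ker]
    refine LinearMap.ext fun w => ?_
    show Bq D z w = 0
    have h3 := q_add D z w
    rw [hD.sing _ hz, hD.sing _ w.2, hD.sing _ (D.𝓛.add_mem hz w.2)] at h3
    simpa using h3.symm
  have heq : D.𝓛 = LinearMap.ker Φ := Submodule.eq_of_le_of_finrank_eq hle (by omega)
  rw [heq, LinearMap.mem_ker]
  refine LinearMap.ext fun w => ?_
  exact h w w.2

end

/-- **JQ-PAR** -/
theorem t_PAR (hID : S_ID) : S_PAR := by
  intro s V P _ _ _ _ _ D ρ hD N h hR hS
  have hfin : FiniteDimensional (ZMod 2) V := Module.Finite.of_finite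
  let E := D.𝓛.comap (clL (V := V) h)
  let B : E →ₗ[ZMod 2] E →ₗ[ZMod 2] ZMod 2 :=
    LinearMap.mk₂ (ZMod 2) (fun e e' => ∑ p, D.ω (e'.1.2 p) (rowL D N h e.1 p))
      (by
        intro a b c
        rw [← sum_add_distrib]
        refine sum_congr rfl fun p _ => ?_
        simp only [Submodule.coe_add, map_add, Pi.add_apply])
      (by
        intro a b c
        rw [smul_eq_mul, mul_sum]
        refine sum_congr rfl fun p _ => ?_
        simp only [Submodule.coe_smul, map_smul, Pi.smul_apply, smul_eq_mul])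
      (by
        intro a b c
        rw [← sum_add_distrib]
        refine sum_congr rfl fun p _ => ?_
        simp only [Submodule.coe_add, Prod.snd_add, map_add, Pi.add_apply, LinearMap.add_apply])
      (by
        intro a b c
        rw [smul_eq_mul, mul_sum]
        refine sum_congr rfl fun p _ => ?_
        simp only [Submodule.coe_smul, Prod.smul_snd, map_smul, Pi.smul_apply, LinearMap.smul_apply, smul_eq_mul])
  have hBap : ∀ e e' : E, B e e' = ∑ p, D.ω (e'.1.2 p) (rowL D N h e.1 p) := fun _ _ => rfl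
  have hBalt : ∀ e : E, B e e = 0 := by
    intro e
    rw [hBap, hID s V P D hD.toSym N h hR e.1]
    exact hD.sing _ e.2
  have h1 := even_rank_top B hBalt
  have hEfin : finrank (ZMod 2) E = Fintype.card P * finrank (ZMod 2) V := finrank_pre D hD.card h hS
  have hEeven : Even (finrank (ZMod 2) E) := by
    rw [hEfin]
    exact (even_V D hD.toSym hD.nd).mul_left _
  have hker : Even (finrank (ZMod 2) (LinearMap.ker B)) := by
    rcases h1 with ⟨k, hk⟩
    rcases hEeven with ⟨l, hl⟩
    exact ⟨k - l, by omega⟩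
  -- rows of `(γ, 0)`
  have hrow : ∀ γ : s → V, ∀ p, rowL D N h (γ, 0) p = ∑ t, h p t • γ t := by
    intro γ p
    show ∑ q, N p q • ((0 : V) + 0) + D.T (h p) 0 + ∑ t, h p t • γ t = _
    simp only [add_zero, smul_zero, sum_const_zero, map_zero, zero_add]
  have hcl : ∀ γ : s → V, clL h (γ, (0 : P → V)) = (γ, 0) := by
    intro γ
    rw [clL_eq, map_zero]
  -- the radical
  let Sl := Sel D N h
  let pm' : Submodule (ZMod 2) ((s → V) × (P → V)) := D.pm.map (LinearMap.inl (ZMod 2) (s → V) (P → V))
  have hrad : (LinearMap.ker B).map E.subtype = Sl ⊔ pm' := by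
    apply le_antisymm
    · rintro _ ⟨⟨e, he⟩, hk, rfl⟩
      have hk' : B ⟨e, he⟩ = 0 := LinearMap.mem_ker.1 hk
      have hz : ∀ e' ∈ E, ∑ p, D.ω (e'.2 p) (rowL D N h e p) = 0 := fun e' he' =>
        LinearMap.congr_fun hk' ⟨e', he'⟩
      obtain ⟨γ, hγ⟩ := dbl_ann D hD.toSym hD.nd h (rowL D N h e) (by
        intro x hx
        refine hz (0, x) ?_
        show clL h ((0 : s → V), x) ∈ D.𝓛
        have : clL h ((0 : s → V), x) = 0 := by
          rw [clL_eq]; exact Prod.ext rfl hx
        rw [this]; exact Submodule.zero_mem _)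
      have hγL : ((γ, 0) : (s → V) × (s → V)) ∈ D.𝓛 := by
        refine self_orth D ρ hD _ fun y' hy' => ?_
        obtain ⟨e', he'⟩ := clL_surj (V := V) h hS y'
        have h2 := hz e' (by show clL h e' ∈ D.𝓛; rw [he']; exact hy')
        have h3 : y'.2 = Mh h e'.2 := by rw [← he', clL_eq]
        rw [Bq_apply]
        have h4 : ∑ p, D.ω (e'.2 p) (rowL D N h e p) = ∑ t, D.ω (y'.2 t) (γ t) := by
          have h5 : ∀ p, D.ω (e'.2 p) (rowL D N h e p) = ∑ t, h p t * D.ω (e'.2 p) (γ t) := by
            intro p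
            rw [hγ, map_sum]
            exact sum_congr rfl fun t _ => by rw [map_smul, smul_eq_mul]
          rw [sum_congr rfl fun p _ => h5 p, sum_comm]
          refine sum_congr rfl fun t _ => ?_
          rw [h3, Mh_apply, map_sum, LinearMap.sum_apply]
          exact sum_congr rfl fun p _ => by rw [map_smul, LinearMap.smul_apply, smul_eq_mul]
        rw [h4] at h2
        rw [← h2]
        refine sum_congr rfl fun t _ => ?_
        simp
      rw [Submodule.mem_sup]
      refine ⟨e + (γ, 0), ⟨?_, ?_⟩, (γ, 0), ⟨γ, hγL, rfl⟩, ?_⟩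
      · show clL h (e + (γ, 0)) ∈ D.𝓛
        rw [map_add, hcl]
        exact D.𝓛.add_mem he hγL
      · rw [SetLike.mem_coe, LinearMap.mem_ker, map_add]
        funext p
        rw [Pi.add_apply, hrow, hγ]
        exact chr _
      · rw [add_assoc]
        have : ((γ, 0) : (s → V) × (P → V)) + (γ, 0) = 0 :=
          Prod.ext (funext fun t => chr _) (funext fun t => chr _)
        rw [this, add_zero]
        rfl
    · rw [sup_le_iff]
      constructor
      · rintro e ⟨he1, he2⟩
        refine ⟨⟨e, he1⟩, ?_, rfl⟩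
        rw [SetLike.mem_coe, LinearMap.mem_ker]
        refine LinearMap.ext fun e' => ?_
        rw [hBap, LinearMap.mem_ker.1 he2]
        simp
      · rintro _ ⟨γ, hγ, rfl⟩
        have hγL : ((γ, 0) : (s → V) × (s → V)) ∈ D.𝓛 := hγ
        refine ⟨⟨(γ, 0), by show clL h (γ, 0) ∈ D.𝓛; rw [hcl]; exact hγL⟩, ?_, rfl⟩
        rw [SetLike.mem_coe, LinearMap.mem_ker]
        refine LinearMap.ext fun e' => ?_
        rw [hBap, LinearMap.zero_apply]
        have he' : clL h e'.1 ∈ D.𝓛 := e'.2
        have h3 := q_add D (γ, 0) (clL h e'.1)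
        rw [hD.sing _ hγL, hD.sing _ he', hD.sing _ (D.𝓛.add_mem hγL he'), Bq_apply, clL_eq] at h3
        have h4 : ∑ p, D.ω (e'.1.2 p) (rowL D N h (γ, 0) p) = ∑ t, D.ω (Mh h e'.1.2 t) (γ t) := by
          have h5 : ∀ p, D.ω (e'.1.2 p) (rowL D N h (γ, 0) p) = ∑ t, h p t * D.ω (e'.1.2 p) (γ t) := by
            intro p
            rw [hrow, map_sum]
            exact sum_congr rfl fun t _ => by rw [map_smul, smul_eq_mul]
          rw [sum_congr rfl fun p _ => h5 p, sum_comm]
          refine sum_congr rfl fun t _ => ?_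
          rw [Mh_apply, map_sum, LinearMap.sum_apply]
          exact sum_congr rfl fun p _ => by rw [map_smul, LinearMap.smul_apply, smul_eq_mul]
        rw [h4]
        simpa using h3.symm
  have hdisj : Sl ⊓ pm' = ⊥ := by
    rw [eq_bot_iff]
    rintro e ⟨⟨he1, he2⟩, ⟨γ, hγ, rfl⟩⟩
    have h2 : ∀ p, ∑ t, h p t • γ t = 0 := by
      intro p
      rw [← hrow]
      exact congrFun (LinearMap.mem_ker.1 he2) p
    have h3 : ∀ v : V, (fun t => D.ω v (γ t)) = (0 : s → ZMod 2) := by
      intro v
      refine hS _ fun p => ?_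
      have h4 := congrArg (D.ω v) (h2 p)
      simp only [map_sum, map_smul, smul_eq_mul, map_zero] at h4
      rw [← h4]
      exact sum_congr rfl fun t _ => mul_comm _ _
    have h4 : γ = 0 := by
      funext t
      refine hD.nd _ fun y => ?_
      rw [symm_of D hD.toSym]
      exact congrFun (h3 y) t
    rw [h4]
    exact Submodule.mem_bot _ |>.2 rfl
  have hdim : finrank (ZMod 2) (LinearMap.ker B) = finrank (ZMod 2) Sl + finrank (ZMod 2) D.pm := by
    have e1 : finrank (ZMod 2) (LinearMap.ker B) = finrank (ZMod 2) ((LinearMap.ker B).map E.subtype) :=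
      LinearEquiv.finrank_eq (Submodule.equivMapOfInjective _ E.injective_subtype _)
    have e2 : finrank (ZMod 2) D.pm = finrank (ZMod 2) pm' :=
      LinearEquiv.finrank_eq (Submodule.equivMapOfInjective _ LinearMap.inl_injective _)
    have e3 := Submodule.finrank_sup_add_finrank_inf_eq Sl pm'
    rw [hdisj, finrank_bot, add_zero] at e3
    rw [e1, e2, hrad, e3]
  rw [hdim] at hker
  obtain ⟨k, hk⟩ := hker
  have h5 : ((finrank (ZMod 2) Sl : ℕ) : ZMod 2) + ((finrank (ZMod 2) D.pm : ℕ) : ZMod 2) = 0 := by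
    rw [← Nat.cast_add, hk, Nat.cast_add]
    exact z2s _
  exact z2 _ _ h5

end Pool.Agent.Q283.FT.A
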